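import Pool.Agent.W104.Irr.Path5
import Pool.Agent.Helper999.Irr.Broom

/-!
# MP_033e98_co: trees whose irregularity strength equals the number of leaves

Chartrand's question, full answer: `n(2) = 4` and `n(p) = 2p + 1` for every `p ≥ 3`.
-/

namespace Pool.Agent.Results.MP_033e98_co.Exact

open Pool.Agent.Helper999.Irr

/-- `GoodN p N`: every tree with exactly `p` leaves, of order at least `3` (the strength of the
tree of order `2` is not defined) and at most `N`, has irregularity strength `p`. -/
def GoodN (p N : ℕ) : Prop :=
  ∀ (V : Type) [Fintype V] (T : SimpleGraph V), T.IsTree → 3 ≤ Fintype.card V →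
    Fintype.card V ≤ N → leafCount T = p → strength T = p

/-- Chartrand's question, full answer. For every `p ≥ 2` let `n(p)` be the largest `N` such that
every tree with exactly `p` leaves and order at most `N` has irregularity strength `p`. Then
`n(2) = 4` and `n(p) = 2p + 1` for every `p ≥ 3`. -/
theorem result : ∀ p : ℕ, 2 ≤ p →
    IsGreatest {N : ℕ | GoodN p N} (if p = 2 then 4 else 2 * p + 1) := by
  intro p hp2
  by_cases hp : p = 2
  · subst hp
    rw [if_pos rfl]
    refine ⟨fun V _ T hT h3 h4 hl => Pool.Agent.W104.Irr.good_two V T hT h3 h4 hl, ?_⟩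
    intro N hN
    by_contra hcon
    exact Pool.Agent.W104.Irr.p5_strength (hN (Fin 5) _ Pool.Agent.W104.Irr.p5_tree (by simp) (by
      rw [Fintype.card_fin]; omega) Pool.Agent.W104.Irr.p5_leaf)
  · rw [if_neg hp]
    have hp3 : 3 ≤ p := by omega
    refine ⟨?_, ?_⟩
    · intro V _ T hT _ hV hl
      classical
      exact Pool.Agent.W104.Irr.strength_exact T hT p hp3 hl hV
    · intro N hN
      by_contra hcon
      obtain ⟨T, hT, hl, hs⟩ := broom p hp3
      exact hs (hN (Fin (2 * p + 2)) T hT (by rw [Fintype.card_fin]; omega)
        (by rw [Fintype.card_fin]; omega) hl)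

end Pool.Agent.Results.MP_033e98_co.Exact
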